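import Mathlib

/-!
# A Hex lemma for the triangulated square, by parity
-/

set_option autoImplicit false

namespace Pool.Agent.H41.LTW

open Finset

/-- parity count on a triangulated square -/
theorem parity_square (n : ℕ) (l : ℕ → ℕ → Fin 4) (e : Fin 4 → Fin 4 → ZMod 2)
    (he : ∀ x, e x x = 0) (hs : ∀ x y, e x y = e y x)
    (h1 : ∀ i < n, ∀ j < n, l i j = l (i + 1) j ∨ l (i + 1) j = l (i + 1) (j + 1) ∨
      l i j = l (i + 1) (j + 1))
    (h2 : ∀ i < n, ∀ j < n, l i j = l i (j + 1) ∨ l i (j + 1) = l (i + 1) (j + 1) ∨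
      l i j = l (i + 1) (j + 1)) :
    ∑ j ∈ range n, e (l 0 j) (l 0 (j + 1)) + ∑ i ∈ range n, e (l i n) (l (i + 1) n) =
      ∑ i ∈ range n, e (l i 0) (l (i + 1) 0) + ∑ j ∈ range n, e (l n j) (l n (j + 1)) := by
  have two : ∀ x : ZMod 2, x + x = 0 := by decide
  have tri : ∀ x y z : Fin 4, (x = y ∨ y = z ∨ x = z) → e x y + e y z = e x z := by
    rintro x y z (h | h | h)
    · subst h; rw [he, zero_add]
    · subst h; rw [he, add_zero]
    · subst h; rw [he, hs y x, two]
  have sq : ∀ i < n, ∀ j < n, e (l i j) (l i (j + 1)) + e (l i (j + 1)) (l (i + 1) (j + 1)) =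
      e (l i j) (l (i + 1) j) + e (l (i + 1) j) (l (i + 1) (j + 1)) := by
    intro i hi j hj
    rw [tri _ _ _ (h1 i hi j hj), tri _ _ _ (h2 i hi j hj)]
  have row : ∀ i < n, ∀ k ≤ n,
      ∑ j ∈ range k, e (l i j) (l i (j + 1)) + e (l i k) (l (i + 1) k) =
      e (l i 0) (l (i + 1) 0) + ∑ j ∈ range k, e (l (i + 1) j) (l (i + 1) (j + 1)) := by
    intro i hi k
    induction k with
    | zero => intro _; simp
    | succ k ih =>
      intro hk
      have h := ih (by omega)
      have h' := sq i hi k (by omega)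
      rw [sum_range_succ, sum_range_succ]
      calc _ = ∑ j ∈ range k, e (l i j) (l i (j + 1)) +
            (e (l i k) (l i (k + 1)) + e (l i (k + 1)) (l (i + 1) (k + 1))) := by ring
        _ = (∑ j ∈ range k, e (l i j) (l i (j + 1)) + e (l i k) (l (i + 1) k)) +
            e (l (i + 1) k) (l (i + 1) (k + 1)) := by rw [h']; ring
        _ = _ := by rw [h]; ring
  have all : ∀ m ≤ n, ∑ j ∈ range n, e (l 0 j) (l 0 (j + 1)) +
        ∑ i ∈ range m, e (l i n) (l (i + 1) n) =
      ∑ i ∈ range m, e (l i 0) (l (i + 1) 0) + ∑ j ∈ range n, e (l m j) (l m (j + 1)) := by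
    intro m
    induction m with
    | zero => intro _; simp
    | succ m ih =>
      intro hm
      have h := ih (by omega)
      have h' := row m (by omega) n le_rfl
      rw [sum_range_succ, sum_range_succ]
      calc _ = (∑ j ∈ range n, e (l 0 j) (l 0 (j + 1)) +
            ∑ i ∈ range m, e (l i n) (l (i + 1) n)) + e (l m n) (l (m + 1) n) := by ring
        _ = ∑ i ∈ range m, e (l i 0) (l (i + 1) 0) +
            (∑ j ∈ range n, e (l m j) (l m (j + 1)) + e (l m n) (l (m + 1) n)) := by rw [h]; ring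
        _ = _ := by rw [h']; ring
  exact all n le_rfl

/-- `e x y = 1` iff `{x, y} = {0, 2}` -/
def ee (x y : Fin 4) : ZMod 2 := if (x = 0 ∧ y = 2) ∨ (x = 2 ∧ y = 0) then 1 else 0

/-- indicator -/
def ind (a x : Fin 4) : ZMod 2 := if x = a then 1 else 0

theorem hex (n : ℕ) (k : ℕ → ℕ → Bool) (r : ℕ × ℕ → ℕ × ℕ → Prop)
    (hrefl : ∀ u, r u u) (hsymm : ∀ u v, r u v → r v u) (htrans : ∀ u v w, r u v → r v w → r u w)
    (hk : ∀ i j i' j', r (i, j) (i', j') → k i j = k i' j')
    (had : ∀ i j i' j', i ≤ n → j ≤ n → i' ≤ n → j' ≤ n → k i j = k i' j' →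
      ((i' = i ∧ j' = j + 1) ∨ (i' = i + 1 ∧ j' = j) ∨ (i' = i + 1 ∧ j' = j + 1)) →
      r (i, j) (i', j')) :
    (∃ q q', q ≤ n ∧ q' ≤ n ∧ r (0, q) (n, q')) ∨ (∃ i i', i ≤ n ∧ i' ≤ n ∧ r (i, 0) (i', n)) := by
  classical
  by_contra hcon
  push Not at hcon
  obtain ⟨hc1, hc2⟩ := hcon
  -- labels
  let l : ℕ → ℕ → Fin 4 := fun i j =>
    if k i j = true then (if ∃ q, q ≤ n ∧ r (0, q) (i, j) then 0 else 1)
    else (if ∃ p, p ≤ n ∧ r (p, 0) (i, j) then 2 else 3)
  have hl : ∀ i j i' j', r (i, j) (i', j') → l i j = l i' j' := by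
    intro i j i' j' h
    have h1 := hk _ _ _ _ h
    have h2 : (∃ q, q ≤ n ∧ r (0, q) (i, j)) ↔ (∃ q, q ≤ n ∧ r (0, q) (i', j')) :=
      ⟨fun ⟨q, hq, hr⟩ => ⟨q, hq, htrans _ _ _ hr h⟩,
        fun ⟨q, hq, hr⟩ => ⟨q, hq, htrans _ _ _ hr (hsymm _ _ h)⟩⟩
    have h3 : (∃ q, q ≤ n ∧ r (q, 0) (i, j)) ↔ (∃ q, q ≤ n ∧ r (q, 0) (i', j')) :=
      ⟨fun ⟨q, hq, hr⟩ => ⟨q, hq, htrans _ _ _ hr h⟩,
        fun ⟨q, hq, hr⟩ => ⟨q, hq, htrans _ _ _ hr (hsymm _ _ h)⟩⟩
    simp only [l, h1, h2, h3]
  have hla : ∀ i j i' j', i ≤ n → j ≤ n → i' ≤ n → j' ≤ n →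
      ((i' = i ∧ j' = j + 1) ∨ (i' = i + 1 ∧ j' = j) ∨ (i' = i + 1 ∧ j' = j + 1)) →
      k i j = k i' j' → l i j = l i' j' :=
    fun i j i' j' a b c d h h' => hl _ _ _ _ (had i j i' j' a b c d h' h)
  have hkl : ∀ i j, (k i j = true ↔ (l i j = 0 ∨ l i j = 1)) := by
    intro i j
    simp only [l]
    split_ifs <;> simp_all
  have pig : ∀ a b c : Bool, a = b ∨ b = c ∨ a = c := by decide
  have main := parity_square n l ee (by decide) (by decide)
    (by
      intro i hi j hj
      rcases pig (k i j) (k (i + 1) j) (k (i + 1) (j + 1)) with h | h | h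
      · exact Or.inl (hla _ _ _ _ (by omega) (by omega) (by omega) (by omega) (by omega) h)
      · exact Or.inr (Or.inl (hla _ _ _ _ (by omega) (by omega) (by omega) (by omega) (by omega) h))
      · exact Or.inr (Or.inr (hla _ _ _ _ (by omega) (by omega) (by omega) (by omega) (by omega) h)))
    (by
      intro i hi j hj
      rcases pig (k i j) (k i (j + 1)) (k (i + 1) (j + 1)) with h | h | h
      · exact Or.inl (hla _ _ _ _ (by omega) (by omega) (by omega) (by omega) (by omega) h)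
      · exact Or.inr (Or.inl (hla _ _ _ _ (by omega) (by omega) (by omega) (by omega) (by omega) h))
      · exact Or.inr (Or.inr (hla _ _ _ _ (by omega) (by omega) (by omega) (by omega) (by omega) h)))
  -- top row: no label 1
  have top1 : ∀ j ≤ n, l 0 j ≠ 1 := by
    intro j hj h
    have hkt := (hkl 0 j).2 (Or.inr h)
    have : l 0 j = 0 := by
      simp only [l, hkt, if_true]
      rw [if_pos ⟨j, hj, hrefl _⟩]
    rw [this] at h; exact absurd h (by decide)
  have left3 : ∀ i ≤ n, l i 0 ≠ 3 := by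
    intro i hi h
    by_cases hkt : k i 0 = true
    · rcases (hkl i 0).1 hkt with h' | h' <;> rw [h'] at h <;> exact absurd h (by decide)
    · have : l i 0 = 2 := by
        simp only [l]
        rw [if_neg hkt, if_pos ⟨i, hi, hrefl _⟩]
      rw [this] at h; exact absurd h (by decide)
  have bot0 : ∀ j ≤ n, l n j ≠ 0 := by
    intro j hj h
    have hkt := (hkl n j).2 (Or.inl h)
    have h' : ¬ ∃ q, q ≤ n ∧ r (0, q) (n, j) := by
      rintro ⟨q, hq, hr⟩
      exact hc1 q j hq hj hr
    have : l n j = 1 := by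
      simp only [l, hkt, if_true]
      rw [if_neg h']
    rw [this] at h; exact absurd h (by decide)
  have right2 : ∀ i ≤ n, l i n ≠ 2 := by
    intro i hi h
    have h' : ¬ ∃ q, q ≤ n ∧ r (q, 0) (i, n) := by
      rintro ⟨q, hq, hr⟩
      exact hc2 q i hq hi hr
    by_cases hkt : k i n = true
    · rcases (hkl i n).1 hkt with h' | h' <;> rw [h'] at h <;> exact absurd h (by decide)
    · have : l i n = 3 := by
        simp only [l]
        rw [if_neg hkt, if_neg h']
      rw [this] at h; exact absurd h (by decide)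
  -- consecutive labels on the boundary
  have nb01 : ∀ i j i' j', i ≤ n → j ≤ n → i' ≤ n → j' ≤ n →
      ((i' = i ∧ j' = j + 1) ∨ (i' = i + 1 ∧ j' = j) ∨ (i' = i + 1 ∧ j' = j + 1)) →
      ¬ (l i j = 0 ∧ l i' j' = 1) ∧ ¬ (l i j = 1 ∧ l i' j' = 0) ∧
      ¬ (l i j = 2 ∧ l i' j' = 3) ∧ ¬ (l i j = 3 ∧ l i' j' = 2) := by
    intro i j i' j' a b c d h
    have e1 := hla i j i' j' a b c d h
    refine ⟨?_, ?_, ?_, ?_⟩
    · rintro ⟨x, y⟩
      have := e1 (((hkl i j).2 (Or.inl x)).trans ((hkl i' j').2 (Or.inr y)).symm)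
      rw [x, y] at this; exact absurd this (by decide)
    · rintro ⟨x, y⟩
      have := e1 (((hkl i j).2 (Or.inr x)).trans ((hkl i' j').2 (Or.inl y)).symm)
      rw [x, y] at this; exact absurd this (by decide)
    · rintro ⟨x, y⟩
      have f1 : k i j = false := by
        by_contra hh
        rcases (hkl i j).1 (by simpa using hh) with h' | h' <;> rw [h'] at x <;>
          exact absurd x (by decide)
      have f2 : k i' j' = false := by
        by_contra hh
        rcases (hkl i' j').1 (by simpa using hh) with h' | h' <;> rw [h'] at y <;>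
          exact absurd y (by decide)
      have := e1 (f1.trans f2.symm)
      rw [x, y] at this; exact absurd this (by decide)
    · rintro ⟨x, y⟩
      have f1 : k i j = false := by
        by_contra hh
        rcases (hkl i j).1 (by simpa using hh) with h' | h' <;> rw [h'] at x <;>
          exact absurd x (by decide)
      have f2 : k i' j' = false := by
        by_contra hh
        rcases (hkl i' j').1 (by simpa using hh) with h' | h' <;> rw [h'] at y <;>
          exact absurd y (by decide)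
      have := e1 (f1.trans f2.symm)
      rw [x, y] at this; exact absurd this (by decide)
  -- sums on the four sides
  have sR : ∑ i ∈ range n, ee (l i n) (l (i + 1) n) = 0 := by
    apply Finset.sum_eq_zero
    intro i hi
    have hi' := Finset.mem_range.1 hi
    have a1 := right2 i (by omega)
    have a2 := right2 (i + 1) (by omega)
    rw [ee, if_neg]
    rintro (⟨_, h⟩ | ⟨h, _⟩)
    · exact a2 h
    · exact a1 h
  have sB : ∑ j ∈ range n, ee (l n j) (l n (j + 1)) = 0 := by
    apply Finset.sum_eq_zero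
    intro j hj
    have hj' := Finset.mem_range.1 hj
    have a1 := bot0 j (by omega)
    have a2 := bot0 (j + 1) (by omega)
    rw [ee, if_neg]
    rintro (⟨h, _⟩ | ⟨_, h⟩)
    · exact a1 h
    · exact a2 h
  have fT : ∀ x y : Fin 4, x ≠ 1 → y ≠ 1 → ¬ (x = 2 ∧ y = 3) → ¬ (x = 3 ∧ y = 2) →
      ee x y = ind 2 x + ind 2 y := by decide
  have fL : ∀ x y : Fin 4, x ≠ 3 → y ≠ 3 → ¬ (x = 0 ∧ y = 1) → ¬ (x = 1 ∧ y = 0) →
      ee x y = ind 0 x + ind 0 y := by decide
  have two : ∀ x : ZMod 2, x + x = 0 := by decide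
  have tel : ∀ (g : ℕ → ZMod 2) (m : ℕ), ∑ j ∈ range m, (g j + g (j + 1)) = g 0 + g m := by
    intro g m
    induction m with
    | zero => simp [two]
    | succ m ih =>
      rw [sum_range_succ, ih]
      calc _ = g 0 + (g m + g m) + g (m + 1) := by ring
        _ = _ := by rw [two]; ring
  have sT : ∑ j ∈ range n, ee (l 0 j) (l 0 (j + 1)) = ind 2 (l 0 0) + ind 2 (l 0 n) := by
    rw [← tel (fun j => ind 2 (l 0 j)) n]
    apply Finset.sum_congr rfl
    intro j hj
    have hj' := Finset.mem_range.1 hj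
    have nb := nb01 0 j 0 (j + 1) (by omega) (by omega) (by omega) (by omega) (by omega)
    exact fT _ _ (top1 j (by omega)) (top1 (j + 1) (by omega)) nb.2.2.1 nb.2.2.2
  have sL : ∑ i ∈ range n, ee (l i 0) (l (i + 1) 0) = ind 0 (l 0 0) + ind 0 (l n 0) := by
    rw [← tel (fun i => ind 0 (l i 0)) n]
    apply Finset.sum_congr rfl
    intro i hi
    have hi' := Finset.mem_range.1 hi
    have nb := nb01 i 0 (i + 1) 0 (by omega) (by omega) (by omega) (by omega) (by omega)
    exact fL _ _ (left3 i (by omega)) (left3 (i + 1) (by omega)) nb.1 nb.2.1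
  rw [sT, sR, sL, sB, add_zero, add_zero] at main
  have z1 : ind 2 (l 0 n) = 0 := by rw [ind, if_neg (right2 0 (Nat.zero_le _))]
  have z2 : ind 0 (l n 0) = 0 := by rw [ind, if_neg (bot0 0 (Nat.zero_le _))]
  rw [z1, z2, add_zero, add_zero] at main
  have t1 := top1 0 (Nat.zero_le _)
  have t2 := left3 0 (Nat.zero_le _)
  have fin : ∀ x : Fin 4, x ≠ 1 → x ≠ 3 → ind 2 x ≠ ind 0 x := by decide
  exact fin _ t1 t2 main

/-- discrete intermediate value theorem along a chain -/
theorem chain_ivt {α : Type} (step : α → α → Prop) (f : α → ℕ)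
    (hf : ∀ u v, step u v → f v ≤ f u + 1) {x y : α} (h : Relation.ReflTransGen step x y) :
    ∀ i, f x ≤ i → i ≤ f y → ∃ u, Relation.ReflTransGen step x u ∧ f u = i := by
  induction h with
  | refl => intro i h1 h2; exact ⟨x, Relation.ReflTransGen.refl, le_antisymm h1 h2⟩
  | @tail y z hxy hyz ih =>
    intro i h1 h2
    by_cases h3 : i ≤ f y
    · exact ih i h1 h3
    · have h4 := hf y z hyz
      exact ⟨z, hxy.tail hyz, by omega⟩

end Pool.Agent.H41.LTW
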