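import Pool.Agent.H41.LTW.Graph
import Pool.Agent.H41.LTW.Hex

/-!
# Every 3-colouring of the graph has a large monochromatic component
-/

set_option autoImplicit false

namespace Pool.Agent.H41.LTW

open Finset

variable {N m R : ℕ}

/-- connection inside a colour class -/
def Rc (c : V N m R → Fin 3) : V N m R → V N m R → Prop :=
  Relation.ReflTransGen (fun u v => (G N m R).Adj u v ∧ c u = c v)

theorem Rc_col {c : V N m R → Fin 3} {u v : V N m R} (h : Rc c u v) : c u = c v := by
  induction h with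
  | refl => rfl
  | tail _ h ih => exact ih.trans h.2

/-- clustering bounds every set inside one component -/
theorem bound {c : V N m R → Fin 3} {C : ℕ}
    (h : ∀ S : Finset (V N m R), (∀ u ∈ S, ∀ w ∈ S, c u = c w) →
      ((G N m R).induce (S : Set (V N m R))).Connected → S.card ≤ C)
    (u : V N m R) (A : Finset (V N m R)) (hA : ∀ w ∈ A, Rc c u w) : A.card ≤ C := by
  classical
  have := Fintype.ofFinite (V N m R)
  let S : Finset (V N m R) := univ.filter (fun w => Rc c u w)
  have hS : ∀ w, w ∈ S ↔ Rc c u w := by intro w; simp [S]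
  have hAS : A ⊆ S := fun w hw => (hS w).2 (hA w hw)
  refine (Finset.card_le_card hAS).trans (h S ?_ ?_)
  · intro v hv w hw
    exact (Rc_col ((hS v).1 hv)).symm.trans (Rc_col ((hS w).1 hw))
  · rw [SimpleGraph.connected_iff_exists_forall_reachable]
    have hu : u ∈ (S : Set (V N m R)) := (hS u).2 Relation.ReflTransGen.refl
    refine ⟨⟨u, hu⟩, ?_⟩
    rintro ⟨w, hw⟩
    have hw' := (hS w).1 hw
    induction hw' with
    | refl => exact SimpleGraph.Reachable.refl _
    | @tail y z hxy hyz ih =>
      have hy : y ∈ (S : Set (V N m R)) := (hS y).2 hxy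
      refine (ih hy).trans (SimpleGraph.Adj.reachable ?_)
      rw [SimpleGraph.induce_adj]
      exact hyz.1

/-- in each fan every colour occurs -/
theorem fan {C : ℕ} (hN : N = (C + 1) * (C + 1)) {c : V N m R → Fin 3}
    (hb : ∀ (u : V N m R) (A : Finset (V N m R)), (∀ w ∈ A, Rc c u w) → A.card ≤ C)
    (p : List (Fin (N + 1))) (hp : p.length < m) : ∃ a, c (V.inn a p hp) = 0 := by
  classical
  by_contra hcon
  push Not at hcon
  -- letter of block `t` and offset `o`
  have hlt : ∀ t o : Fin (C + 1), t.val * (C + 1) + o.val + 1 < N + 1 := by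
    intro t o
    have h1 : t.val ≤ C := by omega
    have h2 : o.val ≤ C := by omega
    have h3 : t.val * (C + 1) ≤ C * (C + 1) := Nat.mul_le_mul_right _ h1
    have h4 : (C + 1) * (C + 1) = C * (C + 1) + (C + 1) := by ring
    omega
  let L : Fin (C + 1) → Fin (C + 1) → Fin (N + 1) := fun t o => ⟨t.val * (C + 1) + o.val + 1, hlt t o⟩
  have hinj : ∀ t o t' o', L t o = L t' o' → t = t' ∧ o = o' := by
    intro t o t' o' h
    have h1 : t.val * (C + 1) + o.val + 1 = t'.val * (C + 1) + o'.val + 1 := congrArg Fin.val h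
    have h2 : t.val * (C + 1) + o.val = t'.val * (C + 1) + o'.val := by omega
    have h3 : (t.val * (C + 1) + o.val) / (C + 1) = t.val := by
      rw [mul_comm, Nat.mul_add_div (by omega), Nat.div_eq_of_lt o.isLt, add_zero]
    have h4 : (t'.val * (C + 1) + o'.val) / (C + 1) = t'.val := by
      rw [mul_comm, Nat.mul_add_div (by omega), Nat.div_eq_of_lt o'.isLt, add_zero]
    have h5 : t.val = t'.val := by rw [← h3, ← h4, h2]
    refine ⟨Fin.ext h5, Fin.ext ?_⟩
    rw [h5] at h2
    omega
  set α := c (V.inn 0 p hp) with hα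
  have hblock : ∃ t, ∀ o, c (V.inn (L t o) p hp) ≠ α := by
    by_contra hno
    push Not at hno
    choose o ho using hno
    have h1 := hb (V.inn 0 p hp) (univ.image (fun t => (V.inn (L t (o t)) p hp : V N m R))) (by
      intro w hw
      rw [Finset.mem_image] at hw
      obtain ⟨t, _, rfl⟩ := hw
      refine Relation.ReflTransGen.single ⟨?_, ?_⟩
      · rw [G, SimpleGraph.fromRel_adj]
        refine ⟨?_, Or.inl ⟨rfl, Or.inl rfl⟩⟩
        intro h
        simp only [V.inn.injEq, and_true] at h
        have := congrArg Fin.val h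
        simp [L] at this
      · rw [ho t])
    rw [Finset.card_image_of_injective] at h1
    · simp at h1
    · intro t t' htt
      simp only [V.inn.injEq, and_true] at htt
      exact (hinj _ _ _ _ htt).1
  obtain ⟨t, ht⟩ := hblock
  have hthird : ∀ x y z w : Fin 3, x ≠ 0 → y ≠ 0 → z ≠ 0 → y ≠ x → z ≠ x → y = z := by decide
  have hsame : ∀ o o', c (V.inn (L t o) p hp) = c (V.inn (L t o') p hp) := fun o o' =>
    hthird α _ _ 0 (hcon 0) (hcon _) (hcon _) (ht o) (ht o')
  have hreach : ∀ k : ℕ, ∀ hk : k < C + 1,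
      Rc c (V.inn (L t ⟨0, by omega⟩) p hp) (V.inn (L t ⟨k, hk⟩) p hp) := by
    intro k
    induction k with
    | zero => intro _; exact Relation.ReflTransGen.refl
    | succ k ih =>
      intro hk
      refine (ih (by omega)).tail ⟨?_, hsame _ _⟩
      rw [G, SimpleGraph.fromRel_adj]
      refine ⟨?_, Or.inl ⟨rfl, Or.inr ?_⟩⟩
      · intro h
        simp only [V.inn.injEq, and_true] at h
        have := (hinj _ _ _ _ h).2
        simp at this
      · simp only [L]
        omega
  have h1 := hb (V.inn (L t ⟨0, by omega⟩) p hp)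
    (univ.image (fun o => (V.inn (L t o) p hp : V N m R))) (by
      intro w hw
      rw [Finset.mem_image] at hw
      obtain ⟨o, _, rfl⟩ := hw
      exact hreach o.val o.isLt)
  rw [Finset.card_image_of_injective] at h1
  · simp at h1
  · intro o o' hoo
    simp only [V.inn.injEq, and_true] at hoo
    exact (hinj _ _ _ _ hoo).2

/-- a word all of whose prefixes have colour `0` -/
theorem word {c : V N m R → Fin 3}
    (hf : ∀ (p : List (Fin (N + 1))) (hp : p.length < m), ∃ a, c (V.inn a p hp) = 0) :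
    ∀ j ≤ m, ∃ s : List (Fin (N + 1)), s.length = j ∧
      ∀ a p (hp : p.length < m), (a :: p) <:+ s → c (V.inn a p hp) = 0 := by
  intro j
  induction j with
  | zero =>
    intro _
    refine ⟨[], rfl, ?_⟩
    intro a p hp h
    simp at h
  | succ j ih =>
    intro hj
    obtain ⟨s, hs, hs'⟩ := ih (by omega)
    obtain ⟨a, ha⟩ := hf s (by omega)
    refine ⟨a :: s, by simp [hs], ?_⟩
    intro b p hp h
    rw [List.suffix_cons_iff] at h
    rcases h with h | h
    · obtain ⟨h1, h2⟩ := List.cons.inj h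
      subst h1; subst h2
      exact ha
    · exact hs' b p hp h

theorem main (C : ℕ) (hN : N = (C + 1) * (C + 1)) (hm : m = C + 1) (hR : R = m * C + 1)
    (c : V N m R → Fin 3)
    (h : ∀ S : Finset (V N m R), (∀ u ∈ S, ∀ w ∈ S, c u = c w) →
      ((G N m R).induce (S : Set (V N m R))).Connected → S.card ≤ C) : False := by
  classical
  have hb := bound h
  obtain ⟨s, hs, hs'⟩ := word (fan hN hb) m le_rfl
  -- apex of row i
  have apex : ∀ i : Fin m, ∃ (a : Fin (N + 1)) (p : List (Fin (N + 1))) (hp : p.length < m),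
      c (V.inn a p hp) = 0 ∧ (a :: p) <:+ s ∧ p.length = i.val := by
    intro i
    have h1 : (s.drop (m - (i.val + 1))).length = i.val + 1 := by
      rw [List.length_drop, hs]; omega
    have h2 : s.drop (m - (i.val + 1)) <:+ s := List.drop_suffix _ _
    generalize s.drop (m - (i.val + 1)) = l at h1 h2
    match l, h1, h2 with
    | a :: p, h1, h2 =>
      have h3 : p.length = i.val := by simpa using h1
      have h4 : p.length < m := by omega
      exact ⟨a, p, h4, hs' a p h4 h2, h2, h3⟩
  have hgood : ∃ r : Fin R, ∀ i q, c (V.grd s hs r i q) ≠ 0 := by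
    by_contra hno
    push Not at hno
    choose i q hiq using hno
    obtain ⟨i₀, _, hi₀⟩ := Finset.exists_lt_card_fiber_of_mul_lt_card_of_maps_to
      (s := (univ : Finset (Fin R))) (t := (univ : Finset (Fin m))) (f := i) (n := C)
      (fun _ _ => mem_univ _) (by simp [hR])
    obtain ⟨a, p, hp, hc0, hsuf, hlen⟩ := apex i₀
    have h1 := hb (V.inn a p hp)
      ((univ.filter (fun r => i r = i₀)).image (fun r => (V.grd s hs r (i r) (q r) : V N m R))) (by
        intro w hw
        rw [Finset.mem_image] at hw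
        obtain ⟨r, hr, rfl⟩ := hw
        rw [Finset.mem_filter] at hr
        refine Relation.ReflTransGen.single ⟨?_, ?_⟩
        · rw [G, SimpleGraph.fromRel_adj]
          refine ⟨by simp, Or.inl ⟨hsuf, ?_⟩⟩
          rw [hlen, hr.2]
        · rw [hc0, hiq r])
    rw [Finset.card_image_of_injective] at h1
    · omega
    · intro r r' hrr
      simp only [V.grd.injEq, true_and] at hrr
      exact hrr.1
  obtain ⟨r, hr⟩ := hgood
  -- the grid as a function of natural numbers
  let g : ℕ → ℕ → V N m R := fun i q =>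
    if hh : i < m ∧ q < m then V.grd s hs r ⟨i, hh.1⟩ ⟨q, hh.2⟩
    else V.grd s hs r ⟨0, by omega⟩ ⟨0, by omega⟩
  have hg : ∀ i q (hi : i < m) (hq : q < m), g i q = V.grd s hs r ⟨i, hi⟩ ⟨q, hq⟩ := by
    intro i q hi hq
    simp only [g]
    rw [dif_pos ⟨hi, hq⟩]
  have hg0 : ∀ i q, c (g i q) ≠ 0 := by
    intro i q
    simp only [g]
    split_ifs
    · exact hr _ _
    · exact hr _ _
  let tri : ℕ × ℕ → ℕ × ℕ → Prop := fun u v =>
    (v.1 = u.1 ∧ v.2 = u.2 + 1) ∨ (v.1 = u.1 + 1 ∧ v.2 = u.2) ∨ (v.1 = u.1 + 1 ∧ v.2 = u.2 + 1)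
  let step : ℕ × ℕ → ℕ × ℕ → Prop := fun u v =>
    (u.1 < m ∧ u.2 < m ∧ v.1 < m ∧ v.2 < m) ∧ (tri u v ∨ tri v u) ∧
      c (g u.1 u.2) = c (g v.1 v.2)
  have step_symm : ∀ u v, step u v → step v u := by
    rintro u v ⟨⟨h1, h2, h3, h4⟩, h5, h6⟩
    exact ⟨⟨h3, h4, h1, h2⟩, h5.symm, h6.symm⟩
  have adj_g : ∀ u v : ℕ × ℕ, (u.1 < m ∧ u.2 < m ∧ v.1 < m ∧ v.2 < m) → tri u v →
      (G N m R).Adj (g u.1 u.2) (g v.1 v.2) := by
    rintro u v ⟨h1, h2, h3, h4⟩ h5
    rw [hg _ _ h1 h2, hg _ _ h3 h4, G, SimpleGraph.fromRel_adj]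
    refine ⟨?_, Or.inl ⟨rfl, rfl, h5⟩⟩
    intro hh
    simp only [V.grd.injEq, Fin.mk.injEq, true_and] at hh
    simp only [tri] at h5
    omega
  have step_Rc : ∀ u v, Relation.ReflTransGen step u v → Rc c (g u.1 u.2) (g v.1 v.2) := by
    intro u v huv
    induction huv with
    | refl => exact Relation.ReflTransGen.refl
    | @tail y z _ hyz ih =>
      obtain ⟨h1, h2, h3⟩ := hyz
      refine ih.tail ⟨?_, h3⟩
      rcases h2 with h2 | h2
      · exact adj_g _ _ h1 h2
      · exact (adj_g _ _ ⟨h1.2.2.1, h1.2.2.2, h1.1, h1.2.1⟩ h2).symm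
  have rsymm : ∀ u v, Relation.ReflTransGen step u v → Relation.ReflTransGen step v u := by
    intro u v huv
    induction huv with
    | refl => exact Relation.ReflTransGen.refl
    | tail _ hyz ih => exact (Relation.ReflTransGen.single (step_symm _ _ hyz)).trans ih
  have rmem : ∀ u v, Relation.ReflTransGen step u v → u = v ∨ (v.1 < m ∧ v.2 < m) := by
    intro u v huv
    rcases Relation.ReflTransGen.cases_tail huv with h1 | ⟨y, _, h1⟩
    · exact Or.inl h1.symm
    · exact Or.inr ⟨h1.1.2.2.1, h1.1.2.2.2⟩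
  have rcol : ∀ u v, Relation.ReflTransGen step u v → c (g u.1 u.2) = c (g v.1 v.2) :=
    fun u v huv => Rc_col (step_Rc u v huv)
  have hthree : ∀ x y : Fin 3, x ≠ 0 → y ≠ 0 → (decide (x = 1) = decide (y = 1)) → x = y := by
    decide
  have hx := hex C (fun i j => decide (c (g i j) = 1)) (Relation.ReflTransGen step)
    (fun _ => Relation.ReflTransGen.refl) rsymm (fun _ _ _ => Relation.ReflTransGen.trans)
    (by
      intro i j i' j' hh
      have := rcol _ _ hh
      simp only at this
      simp only [this])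
    (by
      intro i j i' j' hi hj hi' hj' hk htri
      refine Relation.ReflTransGen.single ⟨⟨by omega, by omega, by omega, by omega⟩, Or.inl htri, ?_⟩
      exact hthree _ _ (hg0 _ _) (hg0 _ _) hk)
  -- a chain crossing gives many vertices
  have final : ∀ (f : ℕ × ℕ → ℕ) (x y : ℕ × ℕ), (∀ u v, step u v → f v ≤ f u + 1) →
      (∀ u, f u = u.1) ∨ (∀ u, f u = u.2) → x.1 < m → x.2 < m → f x = 0 → f y = C →
      Relation.ReflTransGen step x y → False := by
    intro f x y hf hf' hx1 hx2 hx0 hyC hxy
    have hiv := chain_ivt step f hf hxy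
    have hex : ∀ i : Fin (C + 1), ∃ u, Relation.ReflTransGen step x u ∧ f u = i.val := fun i =>
      hiv i.val (by omega) (by omega)
    choose u hu hfu using hex
    have hum : ∀ i, (u i).1 < m ∧ (u i).2 < m := by
      intro i
      rcases rmem _ _ (hu i) with h1 | h1
      · rw [← h1]; exact ⟨hx1, hx2⟩
      · exact h1
    have h1 := hb (g x.1 x.2) (univ.image (fun i => g (u i).1 (u i).2)) (by
      intro w hw
      rw [Finset.mem_image] at hw
      obtain ⟨i, _, rfl⟩ := hw
      exact step_Rc _ _ (hu i))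
    rw [Finset.card_image_of_injective] at h1
    · simp at h1
    · intro i i' hii
      simp only [] at hii
      rw [hg _ _ (hum i).1 (hum i).2, hg _ _ (hum i').1 (hum i').2] at hii
      simp only [V.grd.injEq, Fin.mk.injEq, true_and] at hii
      apply Fin.ext
      rw [← hfu i, ← hfu i']
      rcases hf' with h2 | h2
      · rw [h2, h2, hii.1]
      · rw [h2, h2, hii.2]
  rcases hx with ⟨q, q', hq, hq', hh⟩ | ⟨i, i', hi, hi', hh⟩
  · refine final (fun u => u.1) (0, q) (C, q') ?_ (Or.inl fun _ => rfl) (by simp; omega)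
      (by simp; omega) rfl rfl hh
    rintro u v ⟨_, h5, _⟩
    simp only [tri] at h5
    omega
  · refine final (fun u => u.2) (i, 0) (i', C) ?_ (Or.inr fun _ => rfl) (by simp; omega)
      (by simp; omega) rfl rfl hh
    rintro u v ⟨_, h5, _⟩
    simp only [tri] at h5
    omega

end Pool.Agent.H41.LTW
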