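import Pool.Agent.H41.LTW.Tree

/-!
# The graph: nested fans indexed by words, with triangulated grids attached
-/

set_option autoImplicit false

namespace Pool.Agent.H41.LTW

open Finset

/-- Vertices. `inn a p` is the letter `a` of the fan `F_p` (words are stored reversed); `grd s r i q`
is the vertex in row `i` and column `q` of the `r`-th grid of the full word `s`. -/
inductive V (N m R : ℕ) : Type
  | inn (a : Fin (N + 1)) (p : List (Fin (N + 1))) (hp : p.length < m) : V N m R
  | grd (s : List (Fin (N + 1))) (hs : s.length = m) (r : Fin R) (i q : Fin m) : V N m R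

/-- Nodes of the decomposition tree. -/
inductive Nd (N m R : ℕ) : Type
  | wrd (l : List (Fin (N + 1))) (h : l.length ≤ m) : Nd N m R
  | col (s : List (Fin (N + 1))) (hs : s.length = m) (r : Fin R) (q : Fin m) : Nd N m R

variable {N m R : ℕ}

instance : Finite {l : List (Fin (N + 1)) // l.length ≤ m} :=
  (List.finite_length_le (Fin (N + 1)) m).to_subtype

instance : Finite (V N m R) := by
  let f : V N m R → (Fin (N + 1) × {l : List (Fin (N + 1)) // l.length ≤ m}) ⊕
      ({l : List (Fin (N + 1)) // l.length ≤ m} × Fin R × Fin m × Fin m) := fun v =>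
    match v with
    | V.inn a p hp => Sum.inl (a, ⟨p, hp.le⟩)
    | V.grd s hs r i q => Sum.inr (⟨s, hs.le⟩, r, i, q)
  apply Finite.of_injective f
  intro u v huv
  cases u <;> cases v <;> simp_all [f]

instance : Finite (Nd N m R) := by
  let f : Nd N m R → {l : List (Fin (N + 1)) // l.length ≤ m} ⊕
      ({l : List (Fin (N + 1)) // l.length ≤ m} × Fin R × Fin m) := fun v =>
    match v with
    | Nd.wrd l h => Sum.inl ⟨l, h⟩
    | Nd.col s hs r q => Sum.inr (⟨s, hs.le⟩, r, q)
  apply Finite.of_injective f
  intro u v huv
  cases u <;> cases v <;> simp_all [f]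

/-- predecessor of a letter -/
def pre (a : Fin (N + 1)) : Fin (N + 1) := ⟨a.val - 1, by omega⟩

/-- predecessor of a column -/
def preq (q : Fin m) : Fin m := ⟨q.val - 1, by omega⟩

/-- oriented adjacency -/
def E : V N m R → V N m R → Prop
  | V.inn a p _, V.inn b p' _ => p = p' ∧ (a.val = 0 ∨ a.val + 1 = b.val)
  | V.inn a p _, V.grd s _ _ i _ => (a :: p) <:+ s ∧ p.length = i.val
  | V.grd s _ r i q, V.grd s' _ r' i' q' => s = s' ∧ r = r' ∧
      ((i'.val = i.val ∧ q'.val = q.val + 1) ∨ (i'.val = i.val + 1 ∧ q'.val = q.val) ∨
        (i'.val = i.val + 1 ∧ q'.val = q.val + 1))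
  | V.grd .., V.inn .. => False

/-- the graph -/
def G (N m R : ℕ) : SimpleGraph (V N m R) := SimpleGraph.fromRel E

/-- layers -/
def lay : V N m R → ℕ
  | V.inn _ p _ => p.length
  | V.grd _ _ _ i _ => i.val

/-- membership in bags -/
def inB : Nd N m R → V N m R → Prop
  | Nd.wrd l _, V.inn b p _ => ∃ a : Fin (N + 1), (a :: p) <:+ l ∧
      (b.val = 0 ∨ b.val = a.val ∨ b.val = a.val + 1)
  | Nd.wrd _ _, V.grd .. => False
  | Nd.col s _ _ _, V.inn b p _ => (b :: p) <:+ s
  | Nd.col s _ r q, V.grd s' _ r' _ q' => s' = s ∧ r' = r ∧ (q'.val = q.val ∨ q'.val = q.val + 1)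

/-- parents -/
def par : Nd N m R → Nd N m R
  | Nd.wrd [] h => Nd.wrd [] h
  | Nd.wrd (a :: p) h => if a.val = 0 then Nd.wrd p (by simp at h; omega)
      else Nd.wrd (pre a :: p) (by simpa using h)
  | Nd.col s hs r q => if q.val = 0 then Nd.wrd s hs.le else Nd.col s hs r (preq q)

/-- rank of a word -/
def wr : List (Fin (N + 1)) → ℕ
  | [] => 0
  | a :: p => a.val + 1 + wr p

/-- rank -/
def rank : Nd N m R → ℕ
  | Nd.wrd l _ => wr l
  | Nd.col s _ _ q => wr s + q.val + 1

/-- root -/
def root : Nd N m R := Nd.wrd [] (Nat.zero_le _)

/-- top node of the subtree of a vertex -/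
def topn : V N m R → Nd N m R
  | V.inn b p hp => Nd.wrd (pre b :: p) (by simpa using hp)
  | V.grd s hs r _ q => Nd.col s hs r (preq q)

theorem rank_par (x : Nd N m R) (hx : x ≠ root) : rank (par x) < rank x := by
  match x, hx with
  | Nd.wrd [] h, hx => exact absurd rfl hx
  | Nd.wrd (a :: p) h, _ =>
    simp only [par]
    split_ifs with h0
    · simp only [rank, wr]; omega
    · simp only [rank, wr, pre]; omega
  | Nd.col s hs r q, _ =>
    simp only [par]
    split_ifs with h0
    · simp only [rank]; omega
    · simp only [rank, preq]; omega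

theorem inB_topn (v : V N m R) : inB (topn v) v := by
  cases v with
  | inn b p hp =>
    simp only [topn, inB]
    refine ⟨pre b, List.suffix_refl _, ?_⟩
    simp only [pre]
    omega
  | grd s hs r i q =>
    simp only [topn, inB, preq, true_and]
    omega

theorem inB_par (v : V N m R) (x : Nd N m R) (hx : inB x v) (hxt : x ≠ topn v) :
    x ≠ root ∧ inB (par x) v := by
  match x, v, hx, hxt with
  | Nd.wrd [] h, V.inn b p hp, hx, _ =>
    obtain ⟨a, ha, _⟩ := hx
    simp at ha
  | Nd.wrd (c :: l') h, V.inn b p hp, hx, hxt =>
    refine ⟨by simp [root], ?_⟩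
    obtain ⟨a, ha, hb⟩ := hx
    simp only [par]
    rw [List.suffix_cons_iff] at ha
    split_ifs with h0
    · rcases ha with ha | ha
      · exfalso
        obtain ⟨h1, h2⟩ := List.cons.inj ha
        subst h1; subst h2
        apply hxt
        simp only [topn, Nd.wrd.injEq, List.cons.injEq, and_true]
        apply Fin.ext
        simp only [pre]
        omega
      · exact ⟨a, ha, hb⟩
    · rcases ha with ha | ha
      · obtain ⟨h1, h2⟩ := List.cons.inj ha
        subst h1; subst h2
        refine ⟨pre a, List.suffix_refl _, ?_⟩
        by_cases h3 : b.val = a.val + 1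
        · exfalso
          apply hxt
          simp only [topn, Nd.wrd.injEq, List.cons.injEq, and_true]
          apply Fin.ext
          simp only [pre]
          omega
        · simp only [pre]
          omega
      · exact ⟨a, ha.trans (List.suffix_cons _ _), hb⟩
  | Nd.wrd _ _, V.grd .., hx, _ => exact absurd hx (by simp [inB])
  | Nd.col s hs r q, V.inn b p hp, hx, _ =>
    refine ⟨by simp [root], ?_⟩
    simp only [par]
    simp only [inB] at hx
    split_ifs with h0
    · exact ⟨b, hx, Or.inr (Or.inl rfl)⟩
    · exact hx
  | Nd.col s hs r q, V.grd s' hs' r' i' q', hx, hxt =>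
    refine ⟨by simp [root], ?_⟩
    obtain ⟨h1, h2, h3⟩ := hx
    subst h1; subst h2
    simp only [par]
    split_ifs with h0
    · exfalso
      apply hxt
      simp only [topn, Nd.col.injEq, true_and]
      apply Fin.ext
      simp only [preq]
      omega
    · refine ⟨rfl, rfl, ?_⟩
      by_cases h4 : q'.val = q.val + 1
      · exfalso
        apply hxt
        simp only [topn, Nd.col.injEq, true_and]
        apply Fin.ext
        simp only [preq]
        omega
      · simp only [preq]
        omega

theorem tree : (pGraph (root : Nd N m R) par).IsTree := pGraph_isTree (rank := rank) rank_par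

theorem bag_connected (v : V N m R) :
    ((pGraph (root : Nd N m R) par).induce {x | inB x v}).Connected :=
  induce_connected (rank := rank) rank_par _ (topn v) (inB_topn v) (fun x hx hxt => inB_par v x hx hxt)

theorem E_bag {u v : V N m R} (h : E u v) : ∃ x : Nd N m R, inB x u ∧ inB x v := by
  match u, v, h with
  | V.inn a p hp, V.inn b p' hp', h =>
    obtain ⟨h1, h2⟩ := h
    subst h1
    rcases h2 with h2 | h2
    · refine ⟨Nd.wrd (b :: p) (by simpa using hp), ⟨b, List.suffix_refl _, Or.inl h2⟩,
        ⟨b, List.suffix_refl _, Or.inr (Or.inl rfl)⟩⟩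
    · refine ⟨Nd.wrd (a :: p) (by simpa using hp), ⟨a, List.suffix_refl _, Or.inr (Or.inl rfl)⟩,
        ⟨a, List.suffix_refl _, Or.inr (Or.inr h2.symm)⟩⟩
  | V.inn a p hp, V.grd s hs r i q, h =>
    exact ⟨Nd.col s hs r q, h.1, rfl, rfl, Or.inl rfl⟩
  | V.grd s hs r i q, V.grd s' hs' r' i' q', h =>
    obtain ⟨h1, h2, h3⟩ := h
    subst h1; subst h2
    refine ⟨Nd.col s hs r q, ⟨rfl, rfl, Or.inl rfl⟩, ⟨rfl, rfl, ?_⟩⟩
    omega

theorem adj_bag {u v : V N m R} (h : (G N m R).Adj u v) : ∃ x : Nd N m R, inB x u ∧ inB x v := by
  rw [G, SimpleGraph.fromRel_adj] at h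
  rcases h.2 with h | h
  · exact E_bag h
  · obtain ⟨x, h1, h2⟩ := E_bag h
    exact ⟨x, h2, h1⟩

theorem E_lay {u v : V N m R} (h : E u v) : lay u ≤ lay v + 1 ∧ lay v ≤ lay u + 1 := by
  match u, v, h with
  | V.inn a p hp, V.inn b p' hp', h =>
    obtain ⟨h1, h2⟩ := h
    subst h1
    simp [lay]
  | V.inn a p hp, V.grd s hs r i q, h =>
    obtain ⟨h1, h2⟩ := h
    simp only [lay]
    omega
  | V.grd s hs r i q, V.grd s' hs' r' i' q', h =>
    obtain ⟨h1, h2, h3⟩ := h
    simp only [lay]
    omega

theorem adj_lay {u v : V N m R} (h : (G N m R).Adj u v) :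
    lay u ≤ lay v + 1 ∧ lay v ≤ lay u + 1 := by
  rw [G, SimpleGraph.fromRel_adj] at h
  rcases h.2 with h | h
  · exact E_lay h
  · exact (E_lay h).symm

theorem suffix_unique {α : Type} {p p' l : List α} (h : p <:+ l) (h' : p' <:+ l)
    (hl : p.length = p'.length) : p = p' := by
  rw [List.suffix_iff_eq_drop] at h h'
  rw [h, h', hl]

/-- width -/
theorem width (x : Nd N m R) (i : ℕ) (A : Finset (V N m R)) (hA : ∀ v ∈ A, inB x v ∧ lay v = i) :
    A.card ≤ 3 := by
  match x, hA with
  | Nd.wrd l h, hA =>
    rcases A.eq_empty_or_nonempty with hE | ⟨v₀, hv₀⟩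
    · simp [hE]
    · obtain ⟨h1, h2⟩ := hA v₀ hv₀
      match v₀, h1, h2 with
      | V.inn b₀ p₀ hp₀, ⟨a₀, ha₀, _⟩, h2 =>
        simp only [lay] at h2
        let f : V N m R → ℕ := fun v => match v with
          | V.inn b _ _ => b.val
          | V.grd .. => 0
        have hcard : A.card ≤ ({0, a₀.val, a₀.val + 1} : Finset ℕ).card := by
          apply Finset.card_le_card_of_injOn f
          · intro v hv
            obtain ⟨g1, g2⟩ := hA v hv
            match v, g1, g2 with
            | V.inn b p hp, ⟨a, ha, hb⟩, g2 =>
              simp only [lay] at g2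
              have hh : a :: p = a₀ :: p₀ := suffix_unique ha ha₀ (by simp [g2, h2])
              obtain ⟨e1, e2⟩ := List.cons.inj hh
              subst e1; subst e2
              simp only [f, Finset.coe_insert, Finset.coe_singleton, Set.mem_insert_iff,
                Set.mem_singleton_iff]
              exact hb
          · intro u hu v hv huv
            obtain ⟨g1, g2⟩ := hA u hu
            obtain ⟨k1, k2⟩ := hA v hv
            match u, v, g1, g2, k1, k2, huv with
            | V.inn b p hp, V.inn b' p' hp', ⟨a, ha, hb⟩, g2, ⟨a', ha', hb'⟩, k2, huv =>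
              simp only [lay] at g2 k2
              have hh : a :: p = a' :: p' := suffix_unique ha ha' (by simp [g2, k2])
              obtain ⟨e1, e2⟩ := List.cons.inj hh
              subst e1; subst e2
              simp only [f] at huv
              have : b = b' := Fin.ext huv
              subst this
              rfl
        exact hcard.trans Finset.card_le_three
  | Nd.col s hs r q, hA =>
    let f : V N m R → ℕ := fun v => match v with
      | V.inn _ _ _ => 0
      | V.grd _ _ _ _ q' => q'.val + 1
    have hcard : A.card ≤ ({0, q.val + 1, q.val + 1 + 1} : Finset ℕ).card := by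
      apply Finset.card_le_card_of_injOn f
      · intro v hv
        obtain ⟨g1, g2⟩ := hA v hv
        match v, g1, g2 with
        | V.inn b p hp, g1, g2 =>
          simp [f]
        | V.grd s' hs' r' i' q', ⟨_, _, g1⟩, g2 =>
          simp only [f, Finset.coe_insert, Finset.coe_singleton, Set.mem_insert_iff,
                Set.mem_singleton_iff]
          omega
      · intro u hu v hv huv
        obtain ⟨g1, g2⟩ := hA u hu
        obtain ⟨k1, k2⟩ := hA v hv
        match u, v, g1, g2, k1, k2, huv with
        | V.inn b p hp, V.inn b' p' hp', g1, g2, k1, k2, huv =>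
          simp only [lay] at g2 k2
          simp only [inB] at g1 k1
          have hh : b :: p = b' :: p' := suffix_unique g1 k1 (by simp [g2, k2])
          obtain ⟨e1, e2⟩ := List.cons.inj hh
          subst e1; subst e2
          rfl
        | V.inn b p hp, V.grd .., g1, g2, k1, k2, huv => simp [f] at huv
        | V.grd .., V.inn b p hp, g1, g2, k1, k2, huv => simp [f] at huv
        | V.grd s1 hs1 r1 i1 q1, V.grd s2 hs2 r2 i2 q2, ⟨gg, gg', _⟩, g2, ⟨kk, kk', _⟩, k2, huv =>
          simp only [f] at huv
          simp only [lay] at g2 k2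
          have e1 : i1 = i2 := Fin.ext (by omega)
          have e2 : q1 = q2 := Fin.ext (by omega)
          have e3 : s1 = s2 := gg.trans kk.symm
          have e4 : r1 = r2 := gg'.trans kk'.symm
          subst e1
          subst e2
          subst e3
          subst e4
          rfl
    exact hcard.trans Finset.card_le_three

/-- common neighbours are few -/
theorem codeg (u v : V N m R) (huv : u ≠ v) (A : Finset (V N m R))
    (hA : ∀ w ∈ A, (G N m R).Adj u w ∧ (G N m R).Adj v w) : A.card ≤ 7 := by
  -- degree of a grid vertex
  have hgrid : ∀ (s : List (Fin (N + 1))) (hs : s.length = m) (r : Fin R) (i q : Fin m)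
      (A : Finset (V N m R)), (∀ w ∈ A, (G N m R).Adj (V.grd s hs r i q) w) → A.card ≤ 7 := by
    intro s hs r i q A hA
    let f : V N m R → ℤ × ℤ := fun w => match w with
      | V.inn _ _ _ => (5, 5)
      | V.grd _ _ _ i' q' => ((i'.val : ℤ) - i.val, (q'.val : ℤ) - q.val)
    let F : Finset (ℤ × ℤ) := {(5, 5), (0, 1), (0, -1), (1, 0), (-1, 0), (1, 1), (-1, -1)}
    have hF : F.card ≤ 7 := by decide
    have hcard : A.card ≤ F.card := by
      apply Finset.card_le_card_of_injOn f
      · intro w hw
        have h := hA w hw
        rw [G, SimpleGraph.fromRel_adj] at h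
        match w, h with
        | V.inn b p hp, _ => simp [f, F]
        | V.grd s' hs' r' i' q', ⟨_, h⟩ =>
          simp only [E] at h
          simp only [f, F, Finset.coe_insert, Finset.coe_singleton, Set.mem_insert_iff,
                Set.mem_singleton_iff, Prod.mk.injEq]
          omega
      · intro w hw w' hw' hww
        have h := hA w hw
        have h' := hA w' hw'
        rw [G, SimpleGraph.fromRel_adj] at h h'
        match w, w', h, h', hww with
        | V.inn b p hp, V.inn b' p' hp', ⟨_, h⟩, ⟨_, h'⟩, _ =>
          simp only [E, false_or] at h h'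
          have hh : b :: p = b' :: p' := suffix_unique h.1 h'.1 (by simp [h.2, h'.2])
          obtain ⟨e1, e2⟩ := List.cons.inj hh
          subst e1; subst e2
          rfl
        | V.inn b p hp, V.grd s' hs' r' i' q', _, ⟨_, h'⟩, hww =>
          simp only [E] at h'
          simp only [f, Prod.mk.injEq] at hww
          omega
        | V.grd s' hs' r' i' q', V.inn b p hp, ⟨_, h'⟩, _, hww =>
          simp only [E] at h'
          simp only [f, Prod.mk.injEq] at hww
          omega
        | V.grd s1 hs1 r1 i1 q1, V.grd s2 hs2 r2 i2 q2, ⟨_, h⟩, ⟨_, h'⟩, hww =>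
          simp only [E] at h h'
          simp only [f, Prod.mk.injEq] at hww
          have e0 : s1 = s2 := by
            rcases h with h | h <;> rcases h' with h' | h'
            · exact h.1.symm.trans h'.1
            · exact h.1.symm.trans h'.1.symm
            · exact h.1.trans h'.1
            · exact h.1.trans h'.1.symm
          have e1 : r1 = r2 := by
            rcases h with h | h <;> rcases h' with h' | h'
            · exact h.2.1.symm.trans h'.2.1
            · exact h.2.1.symm.trans h'.2.1.symm
            · exact h.2.1.trans h'.2.1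
            · exact h.2.1.trans h'.2.1.symm
          have e2 : i1 = i2 := Fin.ext (by omega)
          have e3 : q1 = q2 := Fin.ext (by omega)
          subst e0; subst e1; subst e2; subst e3
          rfl
    exact hcard.trans hF
  match u, v, huv, hA with
  | V.grd s hs r i q, _, _, hA => exact hgrid s hs r i q A (fun w hw => (hA w hw).1)
  | _, V.grd s hs r i q, _, hA => exact hgrid s hs r i q A (fun w hw => (hA w hw).2)
  | V.inn a p hp, V.inn b p' hp', huv, hA =>
    let f : V N m R → ℕ := fun w => match w with
      | V.inn c _ _ => c.val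
      | V.grd .. => 0
    have noGrid : ∀ s hs r i q, V.grd s hs r i q ∉ A := by
      intro s hs r i q hw
      obtain ⟨h, h'⟩ := hA _ hw
      rw [G, SimpleGraph.fromRel_adj] at h h'
      simp only [E, or_false] at h h'
      apply huv
      have hh : a :: p = b :: p' := suffix_unique h.2.1 h'.2.1 (by simp [h.2.2, h'.2.2])
      obtain ⟨e1, e2⟩ := List.cons.inj hh
      subst e1; subst e2
      rfl
    have hcard : A.card ≤ ({0, max a.val b.val - 1, max a.val b.val + 1, min a.val b.val - 1,
        min a.val b.val + 1} : Finset ℕ).card := by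
      apply Finset.card_le_card_of_injOn f
      · intro w hw
        obtain ⟨h, h'⟩ := hA _ hw
        rw [G, SimpleGraph.fromRel_adj] at h h'
        match w, h, h' with
        | V.inn c p'' hp'', ⟨h0, h⟩, ⟨h0', h'⟩ =>
          simp only [E] at h h'
          have e0 : p = p'' := by
            rcases h with h | h
            · exact h.1
            · exact h.1.symm
          have e0' : p' = p'' := by
            rcases h' with h' | h'
            · exact h'.1
            · exact h'.1.symm
          subst e0; subst e0'
          have hab : a.val ≠ b.val := by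
            intro e
            apply huv
            have : a = b := Fin.ext e
            subst this
            rfl
          have hac : a.val ≠ c.val := by
            intro e
            apply h0
            have : a = c := Fin.ext e
            subst this
            rfl
          have hbc : b.val ≠ c.val := by
            intro e
            apply h0'
            have : b = c := Fin.ext e
            subst this
            rfl
          simp only [f, Finset.coe_insert, Finset.coe_singleton, Set.mem_insert_iff,
                Set.mem_singleton_iff]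
          omega
        | V.grd s hs r i q, _, _ => exact absurd hw (noGrid _ _ _ _ _)
      · intro w hw w' hw' hww
        obtain ⟨h, _⟩ := hA _ hw
        obtain ⟨h', _⟩ := hA _ hw'
        rw [G, SimpleGraph.fromRel_adj] at h h'
        match w, w', hw, hw', h, h', hww with
        | V.grd s hs r i q, _, hw, _, _, _, _ => exact absurd hw (noGrid _ _ _ _ _)
        | _, V.grd s hs r i q, _, hw', _, _, _ => exact absurd hw' (noGrid _ _ _ _ _)
        | V.inn c p₁ hp₁, V.inn c' p₂ hp₂, _, _, ⟨_, h⟩, ⟨_, h'⟩, hww =>
          simp only [E] at h h'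
          simp only [f] at hww
          have e0 : p = p₁ := by
            rcases h with h | h
            · exact h.1
            · exact h.1.symm
          have e0' : p = p₂ := by
            rcases h' with h' | h'
            · exact h'.1
            · exact h'.1.symm
          have e1 : c = c' := Fin.ext hww
          subst e1
          subst e0
          subst e0'
          rfl
    have h5 : ({0, max a.val b.val - 1, max a.val b.val + 1, min a.val b.val - 1,
        min a.val b.val + 1} : Finset ℕ).card ≤ 5 := Finset.card_le_five
    omega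

end Pool.Agent.H41.LTW
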