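import Mathlib

/-!
# Trees given by a parent function
-/

set_option autoImplicit false

namespace Pool.Agent.H41.LTW

variable {T : Type}

/-- The graph in which every vertex other than `root` is joined to its parent. -/
def pGraph (root : T) (par : T → T) : SimpleGraph T :=
  SimpleGraph.fromRel (fun x y => x ≠ root ∧ par x = y)

theorem pGraph_adj_par {root : T} {par : T → T} {rank : T → ℕ}
    (hr : ∀ x, x ≠ root → rank (par x) < rank x) {x : T} (hx : x ≠ root) :
    (pGraph root par).Adj (par x) x := by
  rw [pGraph, SimpleGraph.fromRel_adj]
  refine ⟨?_, Or.inr ⟨hx, rfl⟩⟩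
  intro h
  have := hr x hx
  rw [h] at this
  exact lt_irrefl _ this

/-- connectivity of an induced subgraph with a top vertex -/
theorem induce_connected {root : T} {par : T → T} {rank : T → ℕ}
    (hr : ∀ x, x ≠ root → rank (par x) < rank x) (S : Set T) (top : T) (htop : top ∈ S)
    (h : ∀ x ∈ S, x ≠ top → x ≠ root ∧ par x ∈ S) :
    ((pGraph root par).induce S).Connected := by
  rw [SimpleGraph.connected_iff_exists_forall_reachable]
  refine ⟨⟨top, htop⟩, ?_⟩
  have key : ∀ n : ℕ, ∀ x : T, ∀ hx : x ∈ S, rank x = n →
      ((pGraph root par).induce S).Reachable ⟨top, htop⟩ ⟨x, hx⟩ := by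
    intro n
    induction n using Nat.strong_induction_on with
    | _ n ih =>
      intro x hx hn
      by_cases hxt : x = top
      · subst hxt
        exact SimpleGraph.Reachable.refl _
      · obtain ⟨h1, h2⟩ := h x hx hxt
        have h3 := hr x h1
        have h4 := ih (rank (par x)) (by omega) (par x) h2 rfl
        refine h4.trans (SimpleGraph.Adj.reachable ?_)
        rw [SimpleGraph.induce_adj]
        exact pGraph_adj_par hr h1
  rintro ⟨x, hx⟩
  exact key _ x hx rfl

theorem pGraph_isTree [Finite T] {root : T} {par : T → T} {rank : T → ℕ}
    (hr : ∀ x, x ≠ root → rank (par x) < rank x) : (pGraph root par).IsTree := by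
  rw [SimpleGraph.isTree_iff_connected_and_card]
  constructor
  · rw [SimpleGraph.connected_iff_exists_forall_reachable]
    refine ⟨root, ?_⟩
    have key : ∀ n : ℕ, ∀ x : T, rank x = n → (pGraph root par).Reachable root x := by
      intro n
      induction n using Nat.strong_induction_on with
      | _ n ih =>
        intro x hn
        by_cases hxt : x = root
        · subst hxt
          exact SimpleGraph.Reachable.refl _
        · have h3 := hr x hxt
          have h4 := ih (rank (par x)) (by omega) (par x) rfl
          exact h4.trans (pGraph_adj_par hr hxt).reachable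
    exact fun x => key _ x rfl
  · have e : Nat.card {x : T // x ≠ root} = Nat.card (pGraph root par).edgeSet := by
      refine Nat.card_eq_of_bijective
        (fun x => (⟨s(par x.1, x.1), by
          rw [SimpleGraph.mem_edgeSet]
          exact pGraph_adj_par hr x.2⟩ : (pGraph root par).edgeSet)) ⟨?_, ?_⟩
      · rintro ⟨x, hx⟩ ⟨y, hy⟩ hxy
        simp only [Subtype.mk.injEq, Sym2.eq, Sym2.rel_iff', Prod.mk.injEq, Prod.swap_prod_mk] at hxy
        rcases hxy with h | h
        · exact Subtype.ext h.2
        · exfalso
          have h1 := hr x hx
          have h2 := hr y hy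
          rw [h.1] at h1
          rw [← h.2] at h2
          omega
      · rintro ⟨e, he⟩
        induction e using Sym2.ind with
        | _ a b =>
          rw [SimpleGraph.mem_edgeSet, pGraph, SimpleGraph.fromRel_adj] at he
          rcases he.2 with h | h
          · refine ⟨⟨a, h.1⟩, ?_⟩
            simp only [Subtype.mk.injEq, h.2]
            exact Sym2.eq_swap
          · refine ⟨⟨b, h.1⟩, ?_⟩
            simp only [h.2]
    rw [← e]
    have := Fintype.ofFinite T
    classical
    rw [Nat.card_eq_fintype_card, Nat.card_eq_fintype_card, Fintype.card_subtype_compl]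
    have h1 : Fintype.card {x : T // x = root} = 1 := Fintype.card_subtype_eq root
    have h2 : 0 < Fintype.card T := Fintype.card_pos_iff.2 ⟨root⟩
    omega

end Pool.Agent.H41.LTW
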